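import Pool.Agent.P.MP_7bc845_ag.Example

/-!
There is a heavy multinet in the complex projective plane that is not induced from any `Q_n`.
-/

namespace Pool.Agent.Results.MP_7bc845_ag.HeavyNotInduced

open Pool.Agent.P.MP_7bc845_ag

theorem result : ∃ (d : ℕ) (P : Submodule ℂ Form),
    IsPencil d P ∧ Ceva P ∧ Heavy P ∧ ¬ Induced P :=
  ⟨6, P0, pencil, ceva, heavy, not_induced⟩

end Pool.Agent.Results.MP_7bc845_ag.HeavyNotInduced
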